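import Pool.Agent.H422R3.CEFinal

/-!
# Stars: labelled copies, degree sums and the asymptotic comparison (helper438)
-/

set_option autoImplicit false

open SimpleGraph Finset Filter

namespace Pool.Agent.Y438.CS

open H422CE

/-- the star with `s` leaves -/
abbrev St (s : ℕ) : SimpleGraph (Fin (s + 1)) := starGraph (0 : Fin (s + 1))

theorem card_copy_star {V : Type*} [Fintype V] [DecidableEq V] (G : SimpleGraph V)
    [DecidableRel G.Adj] (s : ℕ) :
    Nat.card (Copy (St s) G) = ∑ v, (G.degree v).descFactorial s := by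
  classical
  let e : Copy (St s) G ≃ Σ v : V, (Fin s ↪ {w // w ∈ G.neighborFinset v}) :=
    { toFun := fun f => ⟨f 0, ⟨fun i => ⟨f i.succ, by
        rw [mem_neighborFinset]
        exact f.toHom.map_adj (starGraph_adj.2 ⟨(Fin.succ_ne_zero i).symm, Or.inl rfl⟩)⟩, by
        intro i j hij
        have h := congrArg Subtype.val hij
        exact Fin.succ_injective _ (f.injective h)⟩⟩
      invFun := fun x => ⟨⟨Fin.cons x.1 (fun i => (x.2 i).1), by
        intro a b hab
        rw [starGraph_adj] at hab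
        revert hab
        refine Fin.cases ?_ (fun i => ?_) a <;> refine Fin.cases ?_ (fun j => ?_) b
        · intro hab
          exact absurd rfl hab.1
        · intro _
          have h := (x.2 j).2
          rw [mem_neighborFinset] at h
          exact h
        · intro _
          have h := (x.2 i).2
          rw [mem_neighborFinset] at h
          exact h.symm
        · intro hab
          rcases hab.2 with h | h
          · exact absurd h (Fin.succ_ne_zero i)
          · exact absurd h (Fin.succ_ne_zero j)⟩, by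
        intro a b
        refine Fin.cases ?_ (fun i => ?_) a <;> refine Fin.cases ?_ (fun j => ?_) b
        · intro _
          rfl
        · intro hab
          have h := (x.2 j).2
          rw [mem_neighborFinset] at h
          exact absurd hab h.ne
        · intro hab
          have h := (x.2 i).2
          rw [mem_neighborFinset] at h
          exact absurd hab h.ne'
        · intro hab
          have h : x.2 i = x.2 j := Subtype.ext hab
          rw [x.2.injective h]⟩
      left_inv := by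
        intro f
        apply Copy.ext
        intro a
        refine Fin.cases ?_ (fun i => ?_) a <;> rfl
      right_inv := by
        rintro ⟨v, g⟩
        rfl }
  rw [Nat.card_congr e, Nat.card_sigma]
  apply Finset.sum_congr rfl
  intro v _
  rw [Nat.card_eq_fintype_card, Fintype.card_embedding_eq, Fintype.card_coe,
    card_neighborFinset_eq_degree, Fintype.card_fin]

theorem Ex_star_sum {β : Type} {n s : ℕ} {F : SimpleGraph β} {G : SimpleGraph (Fin n)}
    [DecidableRel G.Adj] (hG : G ∈ Ex n (St s) F) (G' : SimpleGraph (Fin n))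
    [DecidableRel G'.Adj] (hG' : F.Free G') :
    ∑ v, (G'.degree v).descFactorial s ≤ ∑ v, (G.degree v).descFactorial s := by
  have := card_copy_mono G G' _ (hG.2 G' hG')
  rwa [card_copy_star, card_copy_star] at this

theorem desc_step (m j : ℕ) :
    (m + 1).descFactorial (j + 1) = m.descFactorial (j + 1) + (j + 1) * m.descFactorial j := by
  rw [Nat.succ_descFactorial_succ, Nat.descFactorial_succ]
  rcases Nat.lt_or_ge m j with h | h
  · rw [Nat.descFactorial_eq_zero_iff_lt.2 h]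
    simp
  · have h1 : m + 1 = (m - j) + (j + 1) := by omega
    calc (m + 1) * m.descFactorial j = ((m - j) + (j + 1)) * m.descFactorial j := by rw [← h1]
      _ = _ := by ring

theorem desc_mono {a b : ℕ} (h : a ≤ b) (j : ℕ) : a.descFactorial j ≤ b.descFactorial j :=
  Nat.descFactorial_le j h

theorem desc_upper (b C j : ℕ) : ∀ x : ℕ, x ≤ C →
    (b + x).descFactorial (j + 1) ≤ b.descFactorial (j + 1) + x * ((j + 1) * (b + C) ^ j) := by
  intro x
  induction x with
  | zero => intro _; simp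
  | succ x ih =>
    intro hx
    have h1 := ih (by omega)
    have h2 := desc_step (b + x) j
    have h3 : (b + x).descFactorial j ≤ (b + C) ^ j :=
      (Nat.descFactorial_le_pow _ _).trans (Nat.pow_le_pow_left (by omega) j)
    have h4 := Nat.mul_le_mul_left (j + 1) h3
    have h5 : b + (x + 1) = (b + x) + 1 := by ring
    rw [h5, h2]
    calc _ ≤ (b.descFactorial (j + 1) + x * ((j + 1) * (b + C) ^ j)) +
        (j + 1) * (b + C) ^ j := Nat.add_le_add h1 h4
      _ = _ := by ring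

theorem desc_lower (b j : ℕ) : ∀ x : ℕ,
    b.descFactorial (j + 1) + x * ((j + 1) * b.descFactorial j) ≤
      (b + x).descFactorial (j + 1) := by
  intro x
  induction x with
  | zero => simp
  | succ x ih =>
    have h2 := desc_step (b + x) j
    have h3 : b.descFactorial j ≤ (b + x).descFactorial j := desc_mono (by omega) j
    have h4 := Nat.mul_le_mul_left (j + 1) h3
    have h5 : b + (x + 1) = (b + x) + 1 := by ring
    rw [h5, h2]
    calc _ = (b.descFactorial (j + 1) + x * ((j + 1) * b.descFactorial j)) +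
        (j + 1) * b.descFactorial j := by ring
      _ ≤ _ := Nat.add_le_add ih h4

/-- case II: the star sum is small -/
theorem caseII_star {V : Type*} [DecidableEq V] [Fintype V] (G : SimpleGraph V)
    [DecidableRel G.Adj] {r d n b j : ℕ} (hn : Fintype.card V = n)
    (hdeg : ∀ v, r * n ≤ (r + 1) * G.degree v + (r + 1))
    (hb1 : (r + 1) * b < r * n) (hb2 : r * n ≤ (r + 1) * (b + 1))
    (c : V → Fin (r + 1)) (hc : ∀ v, #{w | G.Adj v w ∧ c w = c v} ≤ d) :
    ∑ v, (G.degree v).descFactorial (j + 1) ≤ n * b.descFactorial (j + 1) +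
      ((d + 1) * n) * ((j + 1) * (b + (1 + d + r * (d + 1))) ^ j) := by
  obtain ⟨h1, h2⟩ := class_bounds G hn hdeg c hc
  obtain ⟨C, hC⟩ : ∃ C, C = 1 + d + r * (d + 1) := ⟨_, rfl⟩
  rw [← hC]
  have hge : ∀ v, b ≤ G.degree v := by
    intro v
    have h3 := hdeg v
    have h4 : (r + 1) * b < (r + 1) * (G.degree v + 1) := by nlinarith
    have h5 := Nat.lt_of_mul_lt_mul_left h4
    omega
  have hle : ∀ v, G.degree v - b ≤ C := by
    intro v
    have h3 := h2 v
    have h4 : (r + 1) * G.degree v ≤ (r + 1) * (b + C) := by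
      rw [hC]
      nlinarith
    have h5 := Nat.le_of_mul_le_mul_left h4 (by omega)
    omega
  have hsum : ∑ v, (G.degree v - b) ≤ (d + 1) * n := by
    have h3 : ∑ v, G.degree v = ∑ v, (G.degree v - b) + n * b := by
      have h4 : ∀ v ∈ (univ : Finset V), G.degree v = (G.degree v - b) + b := by
        intro v _
        have := hge v
        omega
      rw [sum_congr rfl h4, sum_add_distrib, sum_const, card_univ, hn, smul_eq_mul]
    rw [h3] at h1
    have h5 : (r + 1) * ∑ v, (G.degree v - b) ≤ (r + 1) * ((d + 1) * n) := by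
      have h6 : r * n ^ 2 ≤ (r + 1) * (b + 1) * n := by
        calc r * n ^ 2 = (r * n) * n := by ring
          _ ≤ _ := Nat.mul_le_mul_right n hb2
      nlinarith
    exact Nat.le_of_mul_le_mul_left h5 (by omega)
  have h3 : ∀ v ∈ (univ : Finset V), (G.degree v).descFactorial (j + 1) ≤
      b.descFactorial (j + 1) + (G.degree v - b) * ((j + 1) * (b + C) ^ j) := by
    intro v _
    have h4 := desc_upper b C j (G.degree v - b) (hle v)
    have h5 : b + (G.degree v - b) = G.degree v := by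
      have := hge v
      omega
    rwa [h5] at h4
  calc ∑ v, (G.degree v).descFactorial (j + 1)
      ≤ ∑ v, (b.descFactorial (j + 1) + (G.degree v - b) * ((j + 1) * (b + C) ^ j)) :=
        sum_le_sum h3
    _ = n * b.descFactorial (j + 1) + (∑ v, (G.degree v - b)) * ((j + 1) * (b + C) ^ j) := by
        rw [sum_add_distrib, sum_const, card_univ, hn, smul_eq_mul, sum_mul]
    _ ≤ _ := Nat.add_le_add_left (Nat.mul_le_mul_right _ hsum) _

/-- the star sum of the construction with dominating vertices -/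
theorem An_star {r q n b j x : ℕ} (hqn : q ≤ n) (hq : q = x * (r + 1))
    (hb1 : (r + 1) * b < r * n) :
    q * (n - 1).descFactorial (j + 1) +
        (n - q) * (b.descFactorial (j + 1) + x * ((j + 1) * b.descFactorial j)) ≤
      ∑ v, ((An (r + 1) q n).degree v).descFactorial (j + 1) := by
  have h1 : ∀ v ∈ (univ : Finset (Fin n)), (if v.val < q then (n - 1).descFactorial (j + 1)
      else b.descFactorial (j + 1) + x * ((j + 1) * b.descFactorial j)) ≤
      ((An (r + 1) q n).degree v).descFactorial (j + 1) := by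
    intro v _
    split_ifs with hv
    · rw [An_deg_small v hv]
    · have h2 := An_deg_big hqn v (r := r)
      have h3 : (r + 1) * (b + x) < (r + 1) * ((An (r + 1) q n).degree v + 1) := by
        rw [hq] at h2 ⊢
        nlinarith
      have h4 := Nat.lt_of_mul_lt_mul_left h3
      exact (desc_lower b j x).trans (desc_mono (by omega) (j + 1))
  refine le_trans (le_of_eq ?_) (sum_le_sum h1)
  rw [sum_ite, sum_const, sum_const, smul_eq_mul, smul_eq_mul]
  have h3 : #({v | v.val < q} : Finset (Fin n)) = q := by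
    have : #({v | v.val < q} : Finset (Fin n)) = min n q := Fin.card_filter_val_lt
    rw [this]
    omega
  have h4 : #({v | ¬ v.val < q} : Finset (Fin n)) = n - q := by
    have := Finset.card_filter_add_card_filter_not (s := (univ : Finset (Fin n)))
      (fun v => v.val < q)
    rw [h3, card_univ, Fintype.card_fin] at this
    omega
  rw [h3, h4]

theorem tend (a : ℕ → ℕ) (ρ c : ℝ) (h : ∀ n : ℕ, |(a n : ℝ) - ρ * n| ≤ c) :
    Tendsto (fun n : ℕ => (a n : ℝ) / n) atTop (nhds ρ) := by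
  have h1 : Tendsto (fun n : ℕ => ((a n : ℝ) - ρ * n) / n) atTop (nhds 0) := by
    have h2 : Tendsto (fun n : ℕ => c / (n : ℝ)) atTop (nhds 0) :=
      tendsto_const_div_atTop_nhds_zero_nat c
    refine squeeze_zero_norm (fun n => ?_) h2
    rw [Real.norm_eq_abs, abs_div, Nat.abs_cast]
    exact div_le_div_of_nonneg_right (h n) (Nat.cast_nonneg n)
  have h3 : Tendsto (fun n : ℕ => ρ + ((a n : ℝ) - ρ * n) / n) atTop (nhds (ρ + 0)) :=
    tendsto_const_nhds.add h1
  rw [add_zero] at h3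
  refine h3.congr' ?_
  filter_upwards [eventually_gt_atTop 0] with n hn
  have : (n : ℝ) ≠ 0 := by
    have : (0 : ℝ) < n := by exact_mod_cast hn
    exact this.ne'
  field_simp
  ring

/-- the limit inequality -/
theorem lim_ineq (r : ℕ) (hr : 1 ≤ r) (ρ : ℝ) (hρ : ρ = (r : ℝ) / (r + 1)) : ∀ j : ℕ, 1 ≤ j →
    (12 * (r : ℝ) + 6) * ((j + 1 : ℕ) : ℝ) * ρ ^ j ≤ 12 * r * (r + 1) * (1 - ρ ^ (j + 1)) := by
  have hr0 : (0 : ℝ) < (r : ℝ) := by exact_mod_cast hr
  have h1 : (r + 1) * (1 - ρ) = 1 := by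
    rw [hρ]
    field_simp
    ring
  have hρ0 : 0 < ρ := by rw [hρ]; positivity
  have hρ1 : ρ ≤ 1 := by nlinarith
  have hrρ : (r : ℝ) * (1 - ρ) = ρ := by
    have : (r : ℝ) * (1 - ρ) = (r + 1) * (1 - ρ) - (1 - ρ) := by ring
    rw [this, h1]
    ring
  intro j hj
  induction j, hj using Nat.le_induction with
  | base =>
    have h2 : 12 * (r : ℝ) * (r + 1) * (1 - ρ ^ (1 + 1)) =
        12 * r * ((r + 1) * (1 - ρ)) * (1 + ρ) := by ring
    rw [h2, h1]
    push_cast
    have h3 : 12 * (r : ℝ) * 1 * (1 + ρ) - (12 * (r : ℝ) + 6) * (1 + 1) * ρ ^ 1 =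
        12 * (r * (1 - ρ)) - 12 * ρ := by ring
    rw [hrρ] at h3
    linarith
  | succ j hj ih =>
    have hp : 0 < ρ ^ j := pow_pos hρ0 j
    have h2 : 12 * (r : ℝ) * (r + 1) * (1 - ρ ^ (j + 1 + 1)) =
        12 * r * (r + 1) * (1 - ρ ^ (j + 1)) + 12 * r * ((r + 1) * (1 - ρ)) * ρ ^ (j + 1) := by
      ring
    rw [h2, h1]
    have h3 : 6 * ρ ≤ (12 * (r : ℝ) + 6) * (1 - ρ) := by nlinarith
    have hj0 : (1 : ℝ) ≤ ((j + 1 : ℕ) : ℝ) := by exact_mod_cast Nat.succ_le_succ (Nat.zero_le j)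
    have h4 : 6 * ρ ^ (j + 1) ≤ (12 * (r : ℝ) + 6) * ((j + 1 : ℕ) : ℝ) * ρ ^ j * (1 - ρ) := by
      calc 6 * ρ ^ (j + 1) = (6 * ρ) * ρ ^ j := by ring
        _ ≤ ((12 * (r : ℝ) + 6) * (1 - ρ)) * ρ ^ j := mul_le_mul_of_nonneg_right h3 hp.le
        _ = 1 * ((12 * (r : ℝ) + 6) * (1 - ρ) * ρ ^ j) := by ring
        _ ≤ ((j + 1 : ℕ) : ℝ) * ((12 * (r : ℝ) + 6) * (1 - ρ) * ρ ^ j) := by
            refine mul_le_mul_of_nonneg_right hj0 ?_
            have : 0 ≤ 1 - ρ := by linarith
            positivity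
        _ = _ := by ring
    have h5 : (12 * (r : ℝ) + 6) * ((j + 1 + 1 : ℕ) : ℝ) * ρ ^ (j + 1) =
        (12 * (r : ℝ) + 6) * ((j + 1 : ℕ) : ℝ) * ρ ^ (j + 1) + (12 * (r : ℝ) + 6) * ρ ^ (j + 1) := by
      push_cast
      ring
    have h6 : (12 * (r : ℝ) + 6) * ((j + 1 : ℕ) : ℝ) * ρ ^ j * (1 - ρ) =
        (12 * (r : ℝ) + 6) * ((j + 1 : ℕ) : ℝ) * ρ ^ j -
          (12 * (r : ℝ) + 6) * ((j + 1 : ℕ) : ℝ) * ρ ^ (j + 1) := by ring
    linarith

/-- the comparison for all large `n` -/
theorem compare (r j C q k : ℕ) (hr : 1 ≤ r) (hj : 1 ≤ j) (hk : k = 12 * r + 2)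
    (hq : q = 12 * r * (r + 1)) : ∃ n₁ : ℕ, ∀ n ≥ n₁, ∀ b : ℕ,
    (r + 1) * b < r * n → r * n ≤ (r + 1) * (b + 1) →
    n * b.descFactorial (j + 1) + ((2 * k + 1) * n) * ((j + 1) * (b + C) ^ j) <
      q * (n - 1).descFactorial (j + 1) +
        (n - q) * (b.descFactorial (j + 1) + (12 * r) * ((j + 1) * b.descFactorial j)) := by
  obtain ⟨ρ, hρ⟩ : ∃ ρ : ℝ, ρ = (r : ℝ) / (r + 1) := ⟨_, rfl⟩
  have hr0 : (0 : ℝ) < (r : ℝ) := by exact_mod_cast hr
  have hρ0 : 0 < ρ := by rw [hρ]; positivity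
  have hρr : ρ * (r + 1) = r := by
    rw [hρ]
    field_simp
  -- the canonical choice of `b`
  obtain ⟨B, hB⟩ : ∃ B : ℕ → ℕ, B = fun n => (r * n - 1) / (r + 1) := ⟨_, rfl⟩
  have hBabs : ∀ n : ℕ, |(B n : ℝ) - ρ * n| ≤ 2 := by
    intro n
    have h1 : (r + 1) * B n ≤ r * n := by
      rw [hB]
      exact (Nat.mul_div_le _ _).trans (Nat.sub_le _ _)
    have h2 : r * n ≤ (r + 1) * (B n + 1) := by
      rw [hB]
      have := Nat.lt_mul_div_succ (r * n - 1) (show 0 < r + 1 by omega)
      simp only at this ⊢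
      omega
    have h1' : ((r : ℝ) + 1) * B n ≤ r * n := by exact_mod_cast h1
    have h2' : (r : ℝ) * n ≤ (r + 1) * (B n + 1) := by exact_mod_cast h2
    have h3 : (r : ℝ) * n = (r + 1) * (ρ * n) := by
      calc (r : ℝ) * n = (ρ * (r + 1)) * n := by rw [hρr]
        _ = _ := by ring
    rw [h3] at h1' h2'
    have hr1 : (0 : ℝ) < (r : ℝ) + 1 := by linarith
    have h4 := le_of_mul_le_mul_left h1' hr1
    have h5 := le_of_mul_le_mul_left h2' hr1
    rw [abs_le]
    constructor <;> linarith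
  have t1 := tend B ρ 2 hBabs
  have t2 := tend (fun n => B n + C) ρ (2 + C) (fun n => by
    have := hBabs n
    push_cast
    rw [abs_le] at this ⊢
    have hC : (0 : ℝ) ≤ (C : ℝ) := Nat.cast_nonneg _
    constructor <;> linarith)
  have t3 := tend (fun n => B n + 1 - j) ρ (2 + (j + 1)) (fun n => by
    have := hBabs n
    have h1 : ((B n + 1 - j : ℕ) : ℝ) ≤ B n + 1 := by
      have : B n + 1 - j ≤ B n + 1 := Nat.sub_le _ _
      exact_mod_cast this
    have h2 : (B n : ℝ) - j ≤ ((B n + 1 - j : ℕ) : ℝ) := by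
      have : B n ≤ (B n + 1 - j) + j := by omega
      have h3 : (B n : ℝ) ≤ ((B n + 1 - j : ℕ) : ℝ) + j := by exact_mod_cast this
      linarith
    rw [abs_le] at this ⊢
    have hj0 : (0 : ℝ) ≤ (j : ℝ) := Nat.cast_nonneg _
    constructor <;> linarith)
  have t4 := tend (fun n => n - (j + 1)) 1 (j + 1) (fun n => by
    have h1 : ((n - (j + 1) : ℕ) : ℝ) ≤ n := by
      have : n - (j + 1) ≤ n := Nat.sub_le _ _
      exact_mod_cast this
    have h2 : (n : ℝ) - (j + 1) ≤ ((n - (j + 1) : ℕ) : ℝ) := by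
      have : n ≤ (n - (j + 1)) + (j + 1) := by omega
      have h3 : (n : ℝ) ≤ ((n - (j + 1) : ℕ) : ℝ) + (j + 1) := by exact_mod_cast this
      linarith
    have hj0 : (0 : ℝ) ≤ (j : ℝ) := Nat.cast_nonneg _
    rw [one_mul, abs_le]
    constructor <;> linarith)
  have t5 := tend (fun n => n - q) 1 q (fun n => by
    have h1 : ((n - q : ℕ) : ℝ) ≤ n := by
      have : n - q ≤ n := Nat.sub_le _ _
      exact_mod_cast this
    have h2 : (n : ℝ) - q ≤ ((n - q : ℕ) : ℝ) := by
      have : n ≤ (n - q) + q := by omega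
      have h3 : (n : ℝ) ≤ ((n - q : ℕ) : ℝ) + q := by exact_mod_cast this
      linarith
    have hj0 : (0 : ℝ) ≤ (q : ℝ) := Nat.cast_nonneg _
    rw [one_mul, abs_le]
    constructor <;> linarith)
  have tl := ((t1.pow (j + 1)).const_mul (q : ℝ)).add
    ((t2.pow j).const_mul (((2 * k + 1 : ℕ) : ℝ) * ((j + 1 : ℕ) : ℝ)))
  have tr := ((t4.pow (j + 1)).const_mul (q : ℝ)).add
    ((t5.mul (t3.pow j)).const_mul (((12 * r : ℕ) : ℝ) * ((j + 1 : ℕ) : ℝ)))
  have hlim : (q : ℝ) * ρ ^ (j + 1) + ((2 * k + 1 : ℕ) : ℝ) * ((j + 1 : ℕ) : ℝ) * ρ ^ j <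
      (q : ℝ) * 1 ^ (j + 1) + ((12 * r : ℕ) : ℝ) * ((j + 1 : ℕ) : ℝ) * (1 * ρ ^ j) := by
    have h1 := lim_ineq r hr ρ hρ j hj
    have h2 : (q : ℝ) = 12 * r * (r + 1) := by rw [hq]; push_cast; ring
    have h3 : ((2 * k + 1 : ℕ) : ℝ) = 24 * r + 5 := by rw [hk]; push_cast; ring
    have h4 : 0 < ((j + 1 : ℕ) : ℝ) * ρ ^ j := by positivity
    rw [h2, h3, one_pow]
    push_cast at h1 h4 ⊢
    nlinarith
  have hev := tl.eventually_lt tr hlim
  obtain ⟨N, hN⟩ := eventually_atTop.1 hev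
  refine ⟨max N (q + 1), fun n hn b hb1 hb2 => ?_⟩
  have hnN : N ≤ n := (le_max_left _ _).trans hn
  have hnq : q + 1 ≤ n := (le_max_right _ _).trans hn
  have hbB : b = B n := by
    rw [hB]
    symm
    simp only
    rw [Nat.div_eq_iff (by omega)]
    constructor
    · have : b * (r + 1) = (r + 1) * b := Nat.mul_comm _ _
      omega
    · have : (r + 1) * (b + 1) = (b + 1) * (r + 1) := Nat.mul_comm _ _
      have h3 : (b + 1) * (r + 1) = b * (r + 1) + (r + 1) := by ring
      omega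
  have hlt := hN n hnN
  rw [← hbB] at hlt
  have hn0 : (0 : ℝ) < (n : ℝ) := by
    have : 0 < n := by omega
    exact_mod_cast this
  have hreal : (q : ℝ) * (b : ℝ) ^ (j + 1) +
      ((2 * k + 1 : ℕ) : ℝ) * ((j + 1 : ℕ) : ℝ) * (n * ((b + C : ℕ) : ℝ) ^ j) <
      (q : ℝ) * ((n - (j + 1) : ℕ) : ℝ) ^ (j + 1) +
      ((12 * r : ℕ) : ℝ) * ((j + 1 : ℕ) : ℝ) * (((n - q : ℕ) : ℝ) * ((b + 1 - j : ℕ) : ℝ) ^ j) := by
    have h1 := mul_lt_mul_of_pos_right hlt (pow_pos hn0 (j + 1))
    have e1 : ((q : ℝ) * ((b : ℝ) / n) ^ (j + 1) +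
        ((2 * k + 1 : ℕ) : ℝ) * ((j + 1 : ℕ) : ℝ) * (((b + C : ℕ) : ℝ) / n) ^ j) *
          (n : ℝ) ^ (j + 1) = (q : ℝ) * (b : ℝ) ^ (j + 1) +
      ((2 * k + 1 : ℕ) : ℝ) * ((j + 1 : ℕ) : ℝ) * (n * ((b + C : ℕ) : ℝ) ^ j) := by
      rw [div_pow, div_pow]
      field_simp
      ring
    have e2 : ((q : ℝ) * (((n - (j + 1) : ℕ) : ℝ) / n) ^ (j + 1) +
        ((12 * r : ℕ) : ℝ) * ((j + 1 : ℕ) : ℝ) * ((((n - q : ℕ) : ℝ) / n) *
          (((b + 1 - j : ℕ) : ℝ) / n) ^ j)) * (n : ℝ) ^ (j + 1) =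
        (q : ℝ) * ((n - (j + 1) : ℕ) : ℝ) ^ (j + 1) +
      ((12 * r : ℕ) : ℝ) * ((j + 1 : ℕ) : ℝ) * (((n - q : ℕ) : ℝ) * ((b + 1 - j : ℕ) : ℝ) ^ j) := by
      rw [div_pow, div_pow]
      field_simp
      ring
    rw [e1, e2] at h1
    exact h1
  have hnat : q * b ^ (j + 1) + (2 * k + 1) * (j + 1) * (n * (b + C) ^ j) <
      q * (n - (j + 1)) ^ (j + 1) + (12 * r) * (j + 1) * ((n - q) * (b + 1 - j) ^ j) := by
    exact_mod_cast hreal
  have g1 : b.descFactorial (j + 1) ≤ b ^ (j + 1) := Nat.descFactorial_le_pow _ _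
  have g2 : (n - (j + 1)) ^ (j + 1) ≤ (n - 1).descFactorial (j + 1) := by
    have := Nat.pow_sub_le_descFactorial (n - 1) (j + 1)
    have h3 : n - 1 + 1 - (j + 1) = n - (j + 1) := by omega
    rwa [h3] at this
  have g3 : (b + 1 - j) ^ j ≤ b.descFactorial j := Nat.pow_sub_le_descFactorial b j
  have g4 : n * b.descFactorial (j + 1) = q * b.descFactorial (j + 1) +
      (n - q) * b.descFactorial (j + 1) := by
    rw [← Nat.add_mul]
    congr 1
    omega
  calc n * b.descFactorial (j + 1) + ((2 * k + 1) * n) * ((j + 1) * (b + C) ^ j)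
      = (q * b.descFactorial (j + 1) + (2 * k + 1) * (j + 1) * (n * (b + C) ^ j)) +
        (n - q) * b.descFactorial (j + 1) := by rw [g4]; ring
    _ ≤ (q * b ^ (j + 1) + (2 * k + 1) * (j + 1) * (n * (b + C) ^ j)) +
        (n - q) * b.descFactorial (j + 1) :=
        Nat.add_le_add_right (Nat.add_le_add_right (Nat.mul_le_mul_left _ g1) _) _
    _ < (q * (n - (j + 1)) ^ (j + 1) + (12 * r) * (j + 1) * ((n - q) * (b + 1 - j) ^ j)) +
        (n - q) * b.descFactorial (j + 1) := Nat.add_lt_add_right hnat _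
    _ ≤ (q * (n - 1).descFactorial (j + 1) +
          (12 * r) * (j + 1) * ((n - q) * b.descFactorial j)) +
        (n - q) * b.descFactorial (j + 1) :=
        Nat.add_le_add_right (Nat.add_le_add (Nat.mul_le_mul_left _ g2)
          (Nat.mul_le_mul_left _ (Nat.mul_le_mul_left _ g3))) _
    _ = _ := by ring

end Pool.Agent.Y438.CS
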